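import Pool.Agent.helper54.UG.Spec

/-!
# Project ug, row EXC: the exponential of a conjugate
-/

set_option autoImplicit false

namespace Pool.Agent.UG

open Matrix Pool.Agent.H48SL

theorem EXC_pow {n : ℕ} (g : SLZ n) (X : MQ n) (i : ℕ) :
    (qg g * X * qg g⁻¹) ^ i = qg g * X ^ i * qg g⁻¹ := by
  induction i with
  | zero => rw [pow_zero, pow_zero, mul_one, qg_mul_inv]
  | succ i ih =>
    rw [pow_succ, ih, pow_succ]
    calc qg g * X ^ i * qg g⁻¹ * (qg g * X * qg g⁻¹)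
        = qg g * X ^ i * (qg g⁻¹ * qg g) * X * qg g⁻¹ := by simp only [mul_assoc]
      _ = qg g * (X ^ i * X) * qg g⁻¹ := by rw [qg_inv_mul, mul_one]; simp only [mul_assoc]

theorem EXC : EXC_stmt := by
  intro n g X hX
  obtain ⟨k, hk⟩ := hX
  have h1 : (qg g * X * qg g⁻¹) ^ k = 0 := by rw [EXC_pow, hk, mul_zero, zero_mul]
  refine ⟨⟨k, h1⟩, ?_⟩
  rw [IsNilpotent.exp_eq_sum h1, IsNilpotent.exp_eq_sum hk, Finset.mul_sum, Finset.sum_mul]
  refine Finset.sum_congr rfl fun i _ => ?_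
  rw [EXC_pow, mul_smul_comm, smul_mul_assoc]

end Pool.Agent.UG
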